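import Mathlib
import Pool.Agent.TH775.AC.Stmts

set_option autoImplicit false

open Complex Metric Set

namespace Pool.Agent.TH775.AC.Key

lemma re_inv_one_sub {e : ℂ} (he : ‖e‖ ≤ 1) (he1 : e ≠ 1) : 1 / 2 ≤ (1 / (1 - e)).re := by
  have h0 : (1 : ℂ) - e ≠ 0 := sub_ne_zero.2 (Ne.symm he1)
  have hpos : 0 < normSq (1 - e) := normSq_pos.2 h0
  rw [one_div (1 - e), inv_re, le_div_iff₀ hpos, normSq_apply]
  have h1 : e.re * e.re + e.im * e.im ≤ 1 := by
    have := normSq_eq_norm_sq e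
    rw [normSq_apply] at this
    nlinarith [norm_nonneg e]
  simp only [sub_re, sub_im, one_re, one_im]
  nlinarith

lemma re_inv_one_sub_lt {e : ℂ} (he : ‖e‖ < 1) : 1 / 2 < (1 / (1 - e)).re := by
  have he1 : e ≠ 1 := by
    rintro rfl
    simp at he
  have h0 : (1 : ℂ) - e ≠ 0 := sub_ne_zero.2 (Ne.symm he1)
  have hpos : 0 < normSq (1 - e) := normSq_pos.2 h0
  rw [one_div (1 - e), inv_re, lt_div_iff₀ hpos, normSq_apply]
  have h1 : e.re * e.re + e.im * e.im < 1 := by
    have := normSq_eq_norm_sq e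
    rw [normSq_apply] at this
    nlinarith [norm_nonneg e]
  simp only [sub_re, sub_im, one_re, one_im]
  nlinarith

lemma one_sub_slit {e : ℂ} (he : ‖e‖ < 1) : 1 - e ∈ slitPlane := by
  refine Or.inl ?_
  have := (abs_re_le_norm e).trans_lt he
  rw [abs_lt] at this
  simp only [sub_re, one_re]
  linarith [this.2]

/-- the convexity lemma -/
lemma conv {ζ ω : ℂ} (hζ : ‖ζ‖ < 1) (h : ‖ω‖ < ‖ζ‖) :
    0 < ((1 - ζ) / ζ * (Complex.log (1 - ω) - Complex.log (1 - ζ))).re := by
  have hζ0 : ζ ≠ 0 := by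
    rintro rfl
    simp at h
    linarith [norm_nonneg ω]
  set A : ℂ := (1 - ζ) / ζ with hA
  set e : ℂ → ℂ := fun t => A * Complex.log (1 - (ζ + t * (ω - ζ))) with he
  have hnorm : ∀ t : ℝ, 0 ≤ t → t ≤ 1 → ‖ζ + t * (ω - ζ)‖ < 1 := by
    intro t h0 h1
    have e1 : ζ + (t : ℂ) * (ω - ζ) = ((1 - t : ℝ) : ℂ) * ζ + (t : ℂ) * ω := by push_cast; ring
    rw [e1]
    calc ‖((1 - t : ℝ) : ℂ) * ζ + (t : ℂ) * ω‖ ≤ ‖((1 - t : ℝ) : ℂ) * ζ‖ + ‖(t : ℂ) * ω‖ :=
          norm_add_le _ _
      _ = (1 - t) * ‖ζ‖ + t * ‖ω‖ := by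
          rw [norm_mul, norm_mul, norm_real, norm_real, Real.norm_of_nonneg h0,
            Real.norm_of_nonneg (by linarith)]
      _ ≤ (1 - t) * ‖ζ‖ + t * ‖ζ‖ := by gcongr
      _ = ‖ζ‖ := by ring
      _ < 1 := hζ
  have hder : ∀ t : ℝ, 0 ≤ t → t ≤ 1 → HasDerivAt (fun t : ℝ => (e t).re)
      (A * (-(ω - ζ) / (1 - (ζ + t * (ω - ζ))))).re t := by
    intro t h0 h1
    apply HasDerivAt.real_of_complex
    have d1 : HasDerivAt (fun t : ℂ => 1 - (ζ + t * (ω - ζ))) (-(ω - ζ)) (t : ℂ) := by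
      have := (((hasDerivAt_id (t : ℂ)).mul_const (ω - ζ)).const_add ζ).const_sub 1
      simpa using this
    exact (d1.clog (one_sub_slit (hnorm t h0 h1))).const_mul A
  have hmono : StrictMonoOn (fun t : ℝ => (e t).re) (Icc 0 1) := by
    apply strictMonoOn_of_deriv_pos (convex_Icc 0 1)
    · intro t ht
      exact (hder t ht.1 ht.2).continuousAt.continuousWithinAt
    · intro t ht
      rw [interior_Icc] at ht
      rw [(hder t ht.1.le ht.2.le).deriv]
      obtain ⟨c, hc⟩ : ∃ c : ℂ, c = ω / ζ := ⟨_, rfl⟩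
      have hcn : ‖c‖ < 1 := by
        rw [hc, norm_div, div_lt_one (norm_pos_iff.2 hζ0)]
        exact h
      obtain ⟨E, hE⟩ : ∃ E : ℂ, E = 1 - t * (1 - c) := ⟨_, rfl⟩
      have hEn : ‖E‖ < 1 := by
        have e1 : E = ((1 - t : ℝ) : ℂ) + (t : ℂ) * c := by rw [hE]; push_cast; ring
        rw [e1]
        calc ‖((1 - t : ℝ) : ℂ) + (t : ℂ) * c‖ ≤ ‖((1 - t : ℝ) : ℂ)‖ + ‖(t : ℂ) * c‖ :=
              norm_add_le _ _
          _ = (1 - t) + t * ‖c‖ := by
              rw [norm_mul, norm_real, norm_real, Real.norm_of_nonneg ht.1.le,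
                Real.norm_of_nonneg (by linarith [ht.2])]
          _ < (1 - t) + t * 1 := by
              have := mul_lt_mul_of_pos_left hcn ht.1
              linarith
          _ = 1 := by ring
      have h1E : (1 : ℂ) - E ≠ 0 := by
        intro hh
        have : ‖E‖ = 1 := by rw [← sub_eq_zero.1 hh]; simp
        linarith
      have h1ζ : (1 : ℂ) - ζ ≠ 0 := by
        intro hh
        have : ‖ζ‖ = 1 := by rw [← sub_eq_zero.1 hh]; simp
        linarith
      have ht0 : (t : ℂ) ≠ 0 := by exact_mod_cast ht.1.ne'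
      have hwt : ζ + (t : ℂ) * (ω - ζ) = ζ * E := by
        rw [hE, hc]
        field_simp
        ring
      have hEz : ‖ζ * E‖ < 1 := by rw [← hwt]; exact hnorm t ht.1.le ht.2.le
      have h1Eζ : (1 : ℂ) - ζ * E ≠ 0 := by
        intro hh
        have : ‖ζ * E‖ = 1 := by rw [← sub_eq_zero.1 hh]; simp
        linarith
      obtain ⟨Q, hQ⟩ : ∃ Q : ℂ, Q = 1 / (1 - ζ) + 1 / (1 - E) - 1 := ⟨_, rfl⟩
      have hQre : 0 < Q.re := by
        have h1 := re_inv_one_sub_lt hζ
        have h2 := re_inv_one_sub_lt hEn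
        simp only [hQ, sub_re, add_re, one_re]
        linarith
      have hQ0 : Q ≠ 0 := by
        intro hh
        rw [hh] at hQre
        simp at hQre
      have key : A * (-(ω - ζ) / (1 - (ζ + t * (ω - ζ)))) = ((1 / t : ℝ) : ℂ) * Q⁻¹ := by
        rw [hwt]
        have hQ' : Q = (1 - ζ * E) / ((1 - ζ) * (1 - E)) := by
          rw [hQ]
          field_simp
          ring
        have hωE : (t : ℂ) * (-(ω - ζ)) = ζ * (1 - E) := by
          rw [hE, hc]
          field_simp
          ring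
        rw [hQ', inv_div]
        push_cast
        rw [hA]
        field_simp
        linear_combination hωE
      rw [key, re_ofReal_mul, inv_re]
      have : 0 < normSq Q := normSq_pos.2 hQ0
      have := ht.1
      positivity
  have h01 := hmono (left_mem_Icc.2 zero_le_one) (right_mem_Icc.2 zero_le_one) zero_lt_one
  simp only [he] at h01
  rw [mul_sub, sub_re]
  have e0 : ζ + ((0 : ℝ) : ℂ) * (ω - ζ) = ζ := by simp
  have e1 : ζ + ((1 : ℝ) : ℂ) * (ω - ζ) = ω := by simp
  rw [e0, e1] at h01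
  linarith

/-- monotonicity of `s -> Re (m/q log (1+sq))` -/
lemma mono {m q : ℂ} {k : ℝ} (hk : 1 ≤ k) (hm : m ≠ 0) (hq : q ≠ 0)
    (hn : 0 < (m⁻¹).re) (hnq : (m⁻¹).im * q.im ≤ 0) (h1 : 0 < (1 + q).re)
    (h2 : 0 < (1 + k * q).re) :
    0 ≤ (m / q * (Complex.log (1 + k * q) - Complex.log (1 + q))).re := by
  set e : ℂ → ℂ := fun s => m / q * Complex.log (1 + s * q) with he
  have hre : ∀ s : ℝ, 1 ≤ s → s ≤ k → 0 < (1 + s * q).re := by
    intro s hs1 hsk
    simp only [add_re, one_re, re_ofReal_mul] at h1 h2 ⊢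
    by_cases hq' : 0 ≤ q.re
    · nlinarith
    · push Not at hq'
      nlinarith
  have hder : ∀ s : ℝ, 1 ≤ s → s ≤ k → HasDerivAt (fun s : ℝ => (e s).re)
      (m / q * (q / (1 + s * q))).re s := by
    intro s hs1 hsk
    apply HasDerivAt.real_of_complex
    have d1 : HasDerivAt (fun s : ℂ => 1 + s * q) q (s : ℂ) := by
      have := ((hasDerivAt_id (s : ℂ)).mul_const q).const_add 1
      simpa using this
    exact (d1.clog (Or.inl (hre s hs1 hsk))).const_mul _
  have hmono : MonotoneOn (fun s : ℝ => (e s).re) (Icc 1 k) := by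
    apply monotoneOn_of_deriv_nonneg (convex_Icc 1 k)
    · intro s hs
      exact (hder s hs.1 hs.2).continuousAt.continuousWithinAt
    · intro s hs
      rw [interior_Icc] at hs
      exact (hder s hs.1.le hs.2.le).differentiableAt.differentiableWithinAt
    · intro s hs
      rw [interior_Icc] at hs
      rw [(hder s hs.1.le hs.2.le).deriv]
      have hr := hre s hs.1.le hs.2.le
      have hne : (1 : ℂ) + s * q ≠ 0 := by
        intro hh
        rw [hh] at hr
        simp at hr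
      have key : m / q * (q / (1 + s * q)) = (m⁻¹ * (1 + s * q))⁻¹ := by
        rw [mul_inv, inv_inv]
        field_simp
      rw [key, inv_re]
      have hpos : 0 ≤ (m⁻¹ * (1 + s * q)).re := by
        rw [mul_re]
        have e1 : (1 + (s : ℂ) * q).im = s * q.im := by simp
        rw [e1]
        have hs0 : 0 < s := by linarith [hs.1]
        have a1 := mul_pos hn hr
        have a2 : s * ((m⁻¹).im * q.im) ≤ 0 := mul_nonpos_of_nonneg_of_nonpos hs0.le hnq
        nlinarith
      exact div_nonneg hpos (normSq_nonneg _)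
  have h01 := hmono (left_mem_Icc.2 hk) (right_mem_Icc.2 hk) hk
  simp only [he] at h01
  rw [mul_sub, sub_re]
  simp only [ofReal_one, one_mul] at h01
  linarith

/-- the argument of the exponential of a function with real part of exp positive -/
lemma im_bound {V : ℂ → ℂ} (hV : ContinuousOn V (ball 0 1)) (hV0 : V 0 = 0)
    (hre : ∀ z ∈ ball (0 : ℂ) 1, 0 < (Complex.exp (V z)).re) {z : ℂ} (hz : z ∈ ball (0 : ℂ) 1) :
    |(V z).im| < Real.pi / 2 := by
  by_contra hc
  push Not at hc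
  have hmem : ∀ t : ℝ, t ∈ Icc (0 : ℝ) 1 → (t : ℂ) * z ∈ ball (0 : ℂ) 1 := by
    intro t ht
    rw [mem_ball_zero_iff] at hz ⊢
    rw [norm_mul, norm_real, Real.norm_of_nonneg ht.1]
    calc t * ‖z‖ ≤ 1 * ‖z‖ := by gcongr; exact ht.2
      _ = ‖z‖ := one_mul _
      _ < 1 := hz
  have hcont : ContinuousOn (fun t : ℝ => |(V ((t : ℂ) * z)).im|) (Icc 0 1) := by
    have h1 : ContinuousOn (fun t : ℝ => V ((t : ℂ) * z)) (Icc 0 1) := by
      apply hV.comp
      · exact (continuous_ofReal.mul continuous_const).continuousOn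
      · exact hmem
    exact (continuous_im.comp_continuousOn h1).abs
  have hiv := intermediate_value_Icc (zero_le_one) hcont
  have hin : Real.pi / 2 ∈ Icc |(V (((0 : ℝ) : ℂ) * z)).im| |(V (((1 : ℝ) : ℂ) * z)).im| := by
    constructor
    · simp [hV0]
      positivity
    · simpa using hc
  obtain ⟨t, ht, hte⟩ := hiv hin
  have h1 := hre _ (hmem t ht)
  rw [exp_re] at h1
  have h2 : Real.cos (V ((t : ℂ) * z)).im = 0 := by
    rw [← Real.cos_abs]
    simp only at hte
    rw [hte, Real.cos_pi_div_two]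
  rw [h2] at h1
  simp at h1

lemma norm_one_sub_exp_neg {w : ℂ} (h : 1 / 2 < (Complex.exp w).re) :
    ‖1 - Complex.exp (-w)‖ < 1 := by
  have h0 : Complex.exp w ≠ 0 := Complex.exp_ne_zero _
  have e1 : 1 - Complex.exp (-w) = (Complex.exp w - 1) / Complex.exp w := by
    rw [Complex.exp_neg]
    field_simp
  rw [e1, norm_div, div_lt_one (norm_pos_iff.2 h0)]
  have h1 : normSq (Complex.exp w - 1) < normSq (Complex.exp w) := by
    rw [normSq_apply, normSq_apply]
    simp only [sub_re, sub_im, one_re, one_im]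
    nlinarith
  rw [normSq_eq_norm_sq, normSq_eq_norm_sq] at h1
  exact lt_of_pow_lt_pow_left₀ 2 (norm_nonneg _) h1

end Pool.Agent.TH775.AC.Key

namespace Pool.Agent.TH775.AC

open Key

theorem key_of (h1 : S_N1) (h2 : S_N2) (hA : S_A) (hB : S_B) : S_KEY := by
  intro α L m l ha ha1 hKD hML z₀ hz₀ hz₀0 ζ hζ hζ0 hL k hk hkq
  by_contra hlt
  push Not at hlt
  obtain ⟨hm0, hn⟩ := h1 α L m ha ha1 hKD ζ hζ
  obtain ⟨-, hnq⟩ := h2 α L m ha ha1 hKD ζ hζ
  have hζn : ‖ζ‖ < 1 := mem_ball_zero_iff.1 hζ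
  have h1ζ : (1 : ℂ) - ζ ≠ 0 := by
    intro hh
    have : ‖ζ‖ = 1 := by rw [← sub_eq_zero.1 hh]; simp
    linarith
  have hnpos : 0 < ((m ζ)⁻¹).re := by
    have : (0 : ℝ) < 2 / (2 - α) := by
      apply div_pos <;> linarith
    linarith
  set q : ℂ := 2 * ζ * m ζ / (1 - ζ) with hq
  have hq0 : q ≠ 0 := by
    rw [hq]
    exact div_ne_zero (mul_ne_zero (mul_ne_zero two_ne_zero hζ0) hm0) h1ζ
  have hqL : ζ * deriv L ζ = q := by
    rw [hKD.derivL ζ hζ, hq]
    ring
  rw [hqL] at hkq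
  have hp := hA α l ha hML z₀ hz₀
  have hρ := hKD.rho ζ hζ
  rw [← hq] at hρ
  have hlog := hKD.logid ζ hζ
  rw [← hq] at hlog
  -- the function V
  set V : ℂ → ℂ := fun z => ((α : ℂ) * Complex.log (1 + z * deriv l z) + l z) / 2 with hV
  have hVd : DifferentiableOn ℂ V (ball 0 1) := by
    have d1 : DifferentiableOn ℂ (fun z => 1 + z * deriv l z) (ball 0 1) :=
      (differentiableOn_const 1).add (differentiableOn_id.mul (hML.dl.deriv isOpen_ball))
    have d2 : DifferentiableOn ℂ (fun z => Complex.log (1 + z * deriv l z)) (ball 0 1) :=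
      d1.clog fun z hz => Or.inl (hA α l ha hML z hz)
    exact (((differentiableOn_const (α : ℂ)).mul d2).add hML.dl).div_const 2
  have hV0 : V 0 = 0 := by
    simp [hV, hML.l0]
  have hVB : ∀ z ∈ ball (0 : ℂ) 1, 1 / 2 < (Complex.exp (V z)).re := fun z hz =>
    hB α l ha hML z hz
  have him := im_bound hVd.continuousOn hV0 (fun z hz => by linarith [hVB z hz]) hz₀
  -- Schwarz lemma
  have hω : ‖1 - Complex.exp (-V z₀)‖ ≤ ‖z₀‖ := by
    have := Complex.norm_le_norm_of_mapsTo_ball (f := fun z => 1 - Complex.exp (-V z)) (R := 1)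
      (z := z₀) ((differentiableOn_const 1).sub hVd.neg.cexp)
      (fun z hz => by
        rw [mem_closedBall_zero_iff]
        exact (norm_one_sub_exp_neg (hVB z hz)).le) (by simp [hV0]) (mem_ball_zero_iff.1 hz₀)
    exact this
  have hconv := conv hζn (lt_of_le_of_lt hω hlt)
  have hlogV : Complex.log (1 - (1 - Complex.exp (-V z₀))) = -V z₀ := by
    rw [sub_sub_cancel]
    rw [abs_lt] at him
    apply Complex.log_exp
    · rw [neg_im]
      linarith [him.2, Real.pi_pos]
    · rw [neg_im]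
      linarith [him.1, Real.pi_pos]
  rw [hlogV] at hconv
  have hpk : 1 + z₀ * deriv l z₀ = 1 + k * q := by rw [hkq]
  have hX : -V z₀ - Complex.log (1 - ζ) =
      -((α : ℂ) / 2 * (Complex.log (1 + k * q) - Complex.log (1 + q))) := by
    simp only [hV]
    rw [hpk, ← hL]
    linear_combination (-1 / 2 : ℂ) * hlog
  rw [hX] at hconv
  have hmono := mono hk hm0 hq0 hnpos hnq hρ (by rw [← hpk]; exact hp)
  have hmq : (1 - ζ) / ζ = 2 * (m ζ / q) := by
    rw [hq]
    field_simp
  rw [hmq] at hconv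
  have hfin : 2 * (m ζ / q) * -((α : ℂ) / 2 * (Complex.log (1 + k * q) - Complex.log (1 + q))) =
      -((α : ℂ) * (m ζ / q * (Complex.log (1 + k * q) - Complex.log (1 + q)))) := by ring
  rw [hfin, neg_re, re_ofReal_mul] at hconv
  have := mul_nonneg ha.le hmono
  linarith

end Pool.Agent.TH775.AC
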