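import Mathlib
import Pool.Agent.TH775.AC.Stmts

set_option autoImplicit false

open Complex Metric Set PowerSeries
open scoped BigOperators Topology

namespace Pool.Agent.TH775.AC.SV

open Pool.Agent.H713R2 (tc tc_unique tc_mul tc_deriv tc_zero hasSum_tc)

/-! ### Taylor coefficients -/

lemma tc_congr {f g : ℂ → ℂ} (h : f =ᶠ[𝓝 0] g) (k : ℕ) : tc f k = tc g k := by
  unfold Pool.Agent.H713R2.tc
  rw [h.iteratedDeriv_eq k]

lemma tc_congr_on {f g : ℂ → ℂ} (h : ∀ z ∈ ball (0 : ℂ) 1, f z = g z) (k : ℕ) :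
    tc f k = tc g k :=
  tc_congr (Filter.eventually_of_mem (ball_mem_nhds (0 : ℂ) one_pos) h) k

lemma tc_add {f g : ℂ → ℂ} (hf : DifferentiableOn ℂ f (ball 0 1))
    (hg : DifferentiableOn ℂ g (ball 0 1)) (k : ℕ) :
    tc (fun z => f z + g z) k = tc f k + tc g k := by
  have h := tc_unique (a := fun k => tc f k + tc g k) (F := fun z => f z + g z) one_pos
    (hf.add hg) ?_
  · rw [← h]
  · filter_upwards [ball_mem_nhds (0 : ℂ) one_pos] with x hx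
    have h1 := (hasSum_tc hf hx).add (hasSum_tc hg hx)
    have h2 : (fun k => (tc f k + tc g k) * x ^ k) = fun k => tc f k * x ^ k + tc g k * x ^ k := by
      funext k
      ring
    rw [h2]
    exact h1

lemma tc_cmul {f : ℂ → ℂ} (hf : DifferentiableOn ℂ f (ball 0 1)) (c : ℂ) (k : ℕ) :
    tc (fun z => c * f z) k = c * tc f k := by
  have h := tc_unique (a := fun k => c * tc f k) (F := fun z => c * f z) one_pos
    (hf.const_mul c) ?_
  · rw [← h]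
  · filter_upwards [ball_mem_nhds (0 : ℂ) one_pos] with x hx
    have h1 := (hasSum_tc hf hx).mul_left c
    have h2 : (fun k => (c * tc f k) * x ^ k) = fun k => c * (tc f k * x ^ k) := by
      funext k
      ring
    rw [h2]
    exact h1

lemma tc_sub {f g : ℂ → ℂ} (hf : DifferentiableOn ℂ f (ball 0 1))
    (hg : DifferentiableOn ℂ g (ball 0 1)) (k : ℕ) :
    tc (fun z => f z - g z) k = tc f k - tc g k := by
  have h1 := tc_add hf (hg.const_mul (-1)) k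
  rw [tc_cmul hg] at h1
  have h2 : (fun z => f z - g z) = fun z => f z + -1 * g z := by
    funext z
    ring
  rw [h2, h1]
  ring

lemma tc_sum {ι : Type} [Fintype ι] (μ : ι → ℂ) (f : ι → ℂ → ℂ)
    (hf : ∀ i, DifferentiableOn ℂ (f i) (ball 0 1)) (k : ℕ) :
    tc (fun z => ∑ i, μ i * f i z) k = ∑ i, μ i * tc (f i) k := by
  have hd : DifferentiableOn ℂ (fun z => ∑ i, μ i * f i z) (ball 0 1) := by
    apply DifferentiableOn.fun_sum
    intro i _
    exact (hf i).const_mul _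
  have h := tc_unique (a := fun k => ∑ i, μ i * tc (f i) k) (F := fun z => ∑ i, μ i * f i z)
    one_pos hd ?_
  · rw [← h]
  · filter_upwards [ball_mem_nhds (0 : ℂ) one_pos] with x hx
    have h1 : HasSum (fun k => ∑ i, μ i * (tc (f i) k * x ^ k)) (∑ i, μ i * f i x) := by
      apply hasSum_sum
      intro i _
      exact (hasSum_tc (hf i) hx).mul_left (μ i)
    have h2 : (fun k => (∑ i, μ i * tc (f i) k) * x ^ k) =
        fun k => ∑ i, μ i * (tc (f i) k * x ^ k) := by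
      funext k
      rw [Finset.sum_mul]
      exact Finset.sum_congr rfl fun i _ => by ring
    rw [h2]
    exact h1

lemma tc_const_succ (c : ℂ) (k : ℕ) : tc (fun _ => c) (k + 1) = 0 := by
  unfold Pool.Agent.H713R2.tc
  rw [iteratedDeriv_const]
  simp

/-- the Herglotz kernels -/
noncomputable def hx (x z : ℂ) : ℂ := 1 / (1 - x * z)

lemma hx_ne {x z : ℂ} (h : ‖x‖ ≤ 1) (hz : z ∈ ball (0 : ℂ) 1) : 1 - x * z ≠ 0 := by
  intro hh
  have h1 : ‖x * z‖ = 1 := by rw [← sub_eq_zero.1 hh]; simp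
  rw [mem_ball_zero_iff] at hz
  rw [norm_mul] at h1
  nlinarith [norm_nonneg x, norm_nonneg z]

lemma hx_diff {x : ℂ} (h : ‖x‖ ≤ 1) : DifferentiableOn ℂ (hx x) (ball 0 1) := by
  intro z hz
  have := hx_ne h hz
  have h1 : DifferentiableAt ℂ (fun z : ℂ => 1 - x * z) z := by fun_prop
  exact ((differentiableAt_const (1 : ℂ)).div h1 this).differentiableWithinAt

lemma hx_zero (x : ℂ) : hx x 0 = 1 := by simp [hx]

lemma tc_hx {x : ℂ} (h : ‖x‖ ≤ 1) (k : ℕ) : tc (hx x) k = x ^ k := by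
  have h1 := tc_unique (a := fun k => x ^ k) (F := hx x) one_pos (hx_diff h) ?_
  · rw [← h1]
  · filter_upwards [ball_mem_nhds (0 : ℂ) one_pos] with z hz
    have hn : ‖x * z‖ < 1 := by
      rw [mem_ball_zero_iff] at hz
      rw [norm_mul]
      nlinarith [norm_nonneg x, norm_nonneg z]
    have h2 := hasSum_geometric_of_norm_lt_one hn
    have h3 : (fun k => x ^ k * z ^ k) = fun k => (x * z) ^ k := by
      funext k
      rw [mul_pow]
    rw [h3]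
    unfold hx
    rw [one_div]
    exact h2

lemma hx_re {x z : ℂ} (h : ‖x‖ ≤ 1) (hz : z ∈ ball (0 : ℂ) 1) : 1 / 2 < (hx x z).re := by
  have h0 := hx_ne h hz
  have hpos : 0 < normSq (1 - x * z) := normSq_pos.2 h0
  unfold hx
  rw [one_div (1 - x * z), inv_re, lt_div_iff₀ hpos, normSq_apply]
  have hn : ‖x * z‖ < 1 := by
    rw [mem_ball_zero_iff] at hz
    rw [norm_mul]
    nlinarith [norm_nonneg x, norm_nonneg z]
  have h1 : (x * z).re * (x * z).re + (x * z).im * (x * z).im < 1 := by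
    have := normSq_eq_norm_sq (x * z)
    rw [normSq_apply] at this
    nlinarith [norm_nonneg (x * z)]
  simp only [sub_re, sub_im, one_re, one_im]
  nlinarith

/-! ### power series -/

lemma TS_mul {f g : ℂ → ℂ} (hf : DifferentiableOn ℂ f (ball 0 1))
    (hg : DifferentiableOn ℂ g (ball 0 1)) : TS (fun z => f z * g z) = TS f * TS g := by
  ext n
  rw [PowerSeries.coeff_mul]
  simp only [TS, PowerSeries.coeff_mk]
  exact tc_mul one_pos hf hg n

lemma TS_cmul {f : ℂ → ℂ} (hf : DifferentiableOn ℂ f (ball 0 1)) (c : ℂ) :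
    TS (fun z => c * f z) = PowerSeries.C c * TS f := by
  ext n
  simp only [TS, PowerSeries.coeff_mk, PowerSeries.coeff_C_mul]
  exact tc_cmul hf c n

lemma TS_congr_on {f g : ℂ → ℂ} (h : ∀ z ∈ ball (0 : ℂ) 1, f z = g z) : TS f = TS g := by
  ext n
  simp only [TS, PowerSeries.coeff_mk]
  exact tc_congr_on h n

lemma coeff_of_dvd {P : ℂ⟦X⟧} {N : ℕ} (h : (PowerSeries.X : ℂ⟦X⟧) ^ (N + 1) ∣ P) :
    PowerSeries.coeff N P = 0 :=
  PowerSeries.X_pow_dvd_iff.1 h N (Nat.lt_succ_self N)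

lemma coeff_eq_of_dvd {P Q : ℂ⟦X⟧} {N : ℕ} (h : (PowerSeries.X : ℂ⟦X⟧) ^ (N + 1) ∣ P - Q) :
    PowerSeries.coeff N P = PowerSeries.coeff N Q := by
  have := coeff_of_dvd h
  rw [map_sub, sub_eq_zero] at this
  exact this

lemma LF_congr {φ : ℕ → ℂ} {N : ℕ} {A B : ℂ⟦X⟧}
    (h : (PowerSeries.X : ℂ⟦X⟧) ^ (N + 1) ∣ A - B) : LF φ N A = LF φ N B := by
  unfold LF
  refine Finset.sum_congr rfl fun k _ => ?_
  rw [coeff_eq_of_dvd (h.trans (sub_dvd_pow_sub_pow A B k))]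

lemma coeff_GS {N : ℕ} (c : Fin N → ℂ) (m : ℕ) :
    PowerSeries.coeff m (GS c) = if h : 1 ≤ m ∧ m ≤ N then c ⟨m - 1, by omega⟩ else 0 := by
  unfold GS
  rw [PowerSeries.coeff_mk]

lemma GS_add {N : ℕ} (c d : Fin N → ℂ) : GS (c + d) = GS c + GS d := by
  ext m
  rw [map_add, coeff_GS, coeff_GS, coeff_GS]
  by_cases h : 1 ≤ m ∧ m ≤ N
  · simp [dif_pos h]
  · simp [dif_neg h]

lemma GS_smul {N : ℕ} (r : ℝ) (c : Fin N → ℂ) : GS (r • c) = PowerSeries.C (r : ℂ) * GS c := by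
  ext m
  rw [PowerSeries.coeff_C_mul, coeff_GS, coeff_GS]
  by_cases h : 1 ≤ m ∧ m ≤ N
  · simp [dif_pos h]
  · simp [dif_neg h]

lemma X_dvd_GS {N : ℕ} (c : Fin N → ℂ) : (PowerSeries.X : ℂ⟦X⟧) ∣ GS c := by
  rw [← pow_one (PowerSeries.X : ℂ⟦X⟧), PowerSeries.X_pow_dvd_iff]
  intro m hm
  rw [coeff_GS, dif_neg]
  omega

lemma TS_GS {f : ℂ → ℂ} {N : ℕ} {c : Fin N → ℂ} (h0 : tc f 0 = 0)
    (hc : ∀ j : Fin N, c j = tc f ((j : ℕ) + 1)) :
    (PowerSeries.X : ℂ⟦X⟧) ^ (N + 1) ∣ TS f - GS c := by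
  rw [PowerSeries.X_pow_dvd_iff]
  intro m hm
  rw [map_sub, coeff_GS]
  by_cases h : 1 ≤ m ∧ m ≤ N
  · rw [dif_pos h, hc]
    simp only [TS, PowerSeries.coeff_mk]
    rw [show m - 1 + 1 = m by omega, sub_self]
  · rw [dif_neg h]
    have : m = 0 := by omega
    subst this
    simp only [TS, PowerSeries.coeff_mk, sub_zero]
    exact h0

lemma X_dvd_TS {f : ℂ → ℂ} (h0 : tc f 0 = 0) : (PowerSeries.X : ℂ⟦X⟧) ∣ TS f := by
  rw [← pow_one (PowerSeries.X : ℂ⟦X⟧), PowerSeries.X_pow_dvd_iff]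
  intro m hm
  have : m = 0 := by omega
  subst this
  simp only [TS, PowerSeries.coeff_mk]
  exact h0

/-! ### the transformed functions -/

/-- `K` in the coordinate `s`, `z = s / (1 + s)` -/
noncomputable def Tr (K : ℂ → ℂ) (s : ℂ) : ℂ := K (s / (1 + s))

lemma half_mem {s : ℂ} (hs : s ∈ ball (0 : ℂ) (1 / 2)) :
    1 + s ≠ 0 ∧ s / (1 + s) ∈ ball (0 : ℂ) 1 := by
  rw [mem_ball_zero_iff] at hs
  have h1 : 1 / 2 < ‖1 + s‖ := by
    have h2 : ‖(1 : ℂ)‖ ≤ ‖1 + s‖ + ‖s‖ := by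
      have := norm_sub_le (1 + s) s
      rwa [add_sub_cancel_right] at this
    rw [norm_one] at h2
    linarith
  have h3 : 1 + s ≠ 0 := by
    rw [← norm_pos_iff]
    linarith
  refine ⟨h3, ?_⟩
  rw [mem_ball_zero_iff, norm_div, div_lt_one (norm_pos_iff.2 h3)]
  linarith

lemma Tr_deriv {K X : ℂ → ℂ} (hK : DifferentiableOn ℂ K (ball 0 1))
    (hX : ∀ z ∈ ball (0 : ℂ) 1, deriv K z * (1 - z) ^ 2 = X z) {s : ℂ}
    (hs : s ∈ ball (0 : ℂ) (1 / 2)) : HasDerivAt (Tr K) (Tr X s) s := by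
  obtain ⟨h1, h2⟩ := half_mem hs
  have d1 : HasDerivAt K (deriv K (s / (1 + s))) (s / (1 + s)) :=
    (hK.differentiableAt (isOpen_ball.mem_nhds h2)).hasDerivAt
  have d2 : HasDerivAt (fun s : ℂ => s / (1 + s)) ((1 * (1 + s) - s * 1) / (1 + s) ^ 2) s := by
    apply HasDerivAt.div (hasDerivAt_id' s) _ h1
    exact (hasDerivAt_id' s).const_add 1
  have d3 := d1.comp s d2
  have e : deriv K (s / (1 + s)) * ((1 * (1 + s) - s * 1) / (1 + s) ^ 2) = Tr X s := by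
    unfold Tr
    rw [← hX _ h2]
    congr 1
    field_simp
    ring
  rw [e] at d3
  exact d3

lemma Tr_analytic {K : ℂ → ℂ} (hK : DifferentiableOn ℂ K (ball 0 1)) :
    AnalyticAt ℂ (Tr K) 0 := by
  have hd : DifferentiableOn ℂ (Tr K) (ball 0 (1 / 2)) := by
    intro s hs
    have := Tr_deriv (X := fun z => deriv K z * (1 - z) ^ 2) hK (fun z _ => rfl) hs
    exact this.differentiableAt.differentiableWithinAt
  exact hd.analyticAt (ball_mem_nhds 0 (by norm_num))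

lemma tc_Tr {K X : ℂ → ℂ} (hK : DifferentiableOn ℂ K (ball 0 1))
    (hX : ∀ z ∈ ball (0 : ℂ) 1, deriv K z * (1 - z) ^ 2 = X z) (k : ℕ) :
    tc (Tr X) k = (k + 1) * tc (Tr K) (k + 1) := by
  rw [← tc_deriv]
  apply tc_congr
  filter_upwards [ball_mem_nhds (0 : ℂ) (by norm_num : (0 : ℝ) < 1 / 2)] with s hs
  exact (Tr_deriv hK hX hs).deriv.symm

lemma D0 (hComp : S_COMP) {K s : ℂ → ℂ} (hK : DifferentiableOn ℂ K (ball 0 1))
    (hs : DifferentiableOn ℂ s (ball 0 1)) (hs0 : s 0 = 0) {N : ℕ} {A : ℂ⟦X⟧}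
    (hA : (PowerSeries.X : ℂ⟦X⟧) ^ (N + 1) ∣ TS s - A) :
    tc (fun z => Tr K (s z)) N = LF (tc (Tr K)) N A := by
  have h := coeff_eq_of_dvd (hComp (Tr K) s 1 (N + 1) one_pos (Tr_analytic hK) hs hs0)
  rw [map_sum] at h
  rw [← LF_congr hA]
  simp only [PowerSeries.coeff_C_mul] at h
  unfold LF
  rw [← h]
  simp only [TS, PowerSeries.coeff_mk]

lemma D1 (hComp : S_COMP) {K X s : ℂ → ℂ} (hK : DifferentiableOn ℂ K (ball 0 1))
    (hXd : DifferentiableOn ℂ X (ball 0 1))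
    (hX : ∀ z ∈ ball (0 : ℂ) 1, deriv K z * (1 - z) ^ 2 = X z)
    (hs : DifferentiableOn ℂ s (ball 0 1)) (hs0 : s 0 = 0) {N : ℕ} {A B : ℂ⟦X⟧}
    (hA : (PowerSeries.X : ℂ⟦X⟧) ^ (N + 1) ∣ TS s - A) (hB : (PowerSeries.X : ℂ⟦X⟧) ∣ B) :
    PowerSeries.coeff N (TS (fun z => Tr X (s z)) * B) =
      ∑ k ∈ Finset.range (N + 1), tc (Tr K) k *
        PowerSeries.coeff N ((k : ℂ⟦X⟧) * A ^ (k - 1) * B) := by
  have h := hComp (Tr X) s 1 N one_pos (Tr_analytic hXd) hs hs0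
  have h1 : (PowerSeries.X : ℂ⟦X⟧) ^ (N + 1) ∣ TS (fun z => Tr X (s z)) * B -
      (∑ k ∈ Finset.range N, PowerSeries.C (tc (Tr X) k) * (TS s) ^ k) * B := by
    rw [← sub_mul, pow_succ]
    exact mul_dvd_mul h hB
  rw [coeff_eq_of_dvd h1, Finset.sum_mul, map_sum, Finset.sum_range_succ']
  simp only [Nat.cast_zero, zero_mul, map_zero, mul_zero, add_zero]
  refine Finset.sum_congr rfl fun k _ => ?_
  have h2 : (PowerSeries.X : ℂ⟦X⟧) ^ (N + 1) ∣ (TS s) ^ k * B - A ^ k * B := by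
    rw [← sub_mul]
    exact (hA.trans (sub_dvd_pow_sub_pow _ _ k)).mul_right B
  rw [mul_assoc, PowerSeries.coeff_C_mul, coeff_eq_of_dvd h2, tc_Tr hK hX, Nat.add_sub_cancel]
  have h3 : ((k + 1 : ℕ) : ℂ⟦X⟧) = PowerSeries.C ((k : ℂ) + 1) := by
    rw [map_add, map_one, map_natCast]
    push_cast
    rfl
  rw [h3, mul_assoc (PowerSeries.C _), PowerSeries.coeff_C_mul]
  ring

lemma D2 (hComp : S_COMP) {K X Y s : ℂ → ℂ} (hK : DifferentiableOn ℂ K (ball 0 1))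
    (hXd : DifferentiableOn ℂ X (ball 0 1)) (hYd : DifferentiableOn ℂ Y (ball 0 1))
    (hX : ∀ z ∈ ball (0 : ℂ) 1, deriv K z * (1 - z) ^ 2 = X z)
    (hY : ∀ z ∈ ball (0 : ℂ) 1, deriv X z * (1 - z) ^ 2 = Y z)
    (hs : DifferentiableOn ℂ s (ball 0 1)) (hs0 : s 0 = 0) {n : ℕ} {A B : ℂ⟦X⟧}
    (hA : (PowerSeries.X : ℂ⟦X⟧) ^ (n + 1 + 1) ∣ TS s - A) (hB : (PowerSeries.X : ℂ⟦X⟧) ∣ B) :
    PowerSeries.coeff (n + 1) (TS (fun z => Tr Y (s z)) * B ^ 2) =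
      ∑ k ∈ Finset.range (n + 1 + 1), tc (Tr K) k *
        PowerSeries.coeff (n + 1) ((k : ℂ⟦X⟧) * ((k - 1 : ℕ) : ℂ⟦X⟧) * A ^ (k - 2) * B ^ 2) := by
  have h := hComp (Tr Y) s 1 n one_pos (Tr_analytic hYd) hs hs0
  have h1 : (PowerSeries.X : ℂ⟦X⟧) ^ (n + 1 + 1) ∣ TS (fun z => Tr Y (s z)) * B ^ 2 -
      (∑ k ∈ Finset.range n, PowerSeries.C (tc (Tr Y) k) * (TS s) ^ k) * B ^ 2 := by
    rw [← sub_mul, show n + 1 + 1 = n + 2 by rfl, pow_add]
    exact mul_dvd_mul h (pow_dvd_pow_of_dvd hB 2)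
  rw [coeff_eq_of_dvd h1, Finset.sum_mul, map_sum, Finset.sum_range_succ', Finset.sum_range_succ']
  simp only [Nat.cast_zero, zero_mul, map_zero, mul_zero, add_zero, zero_add, Nat.sub_self]
  refine Finset.sum_congr rfl fun k _ => ?_
  have h2 : (PowerSeries.X : ℂ⟦X⟧) ^ (n + 1 + 1) ∣ (TS s) ^ k * B ^ 2 - A ^ k * B ^ 2 := by
    rw [← sub_mul]
    exact (hA.trans (sub_dvd_pow_sub_pow _ _ k)).mul_right _
  rw [mul_assoc, PowerSeries.coeff_C_mul, coeff_eq_of_dvd h2, tc_Tr hXd hY, tc_Tr hK hX,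
    show k + 1 + 1 - 1 = k + 1 by rfl, show k + 1 + 1 - 2 = k by rfl]
  have h3 : ((k + 1 + 1 : ℕ) : ℂ⟦X⟧) * ((k + 1 : ℕ) : ℂ⟦X⟧) =
      PowerSeries.C (((k : ℂ) + 1 + 1) * ((k : ℂ) + 1)) := by
    rw [map_mul, map_add, map_add, map_one, map_natCast]
    push_cast
    rfl
  rw [h3, mul_assoc (PowerSeries.C _), PowerSeries.coeff_C_mul]
  push_cast
  ring

end Pool.Agent.TH775.AC.SV
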