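import Pool.Agent.TH558.AC.SVa
import Pool.Agent.H73R3.Hull

set_option autoImplicit false

open Complex Metric Set PowerSeries
open scoped BigOperators Topology

namespace Pool.Agent.TH775.AC.SV

open Pool.Agent.H713R2 (tc tc_unique tc_mul tc_deriv tc_zero hasSum_tc)

lemma no_max {G G1 : ℝ → ℝ} {d2 : ℝ} (h1 : ∀ t, HasDerivAt G (G1 t) t)
    (h2 : HasDerivAt G1 d2 0) (h0 : G1 0 = 0) (hpos : 0 < d2)
    (hmax : ∀ᶠ t in 𝓝 (0 : ℝ), G t ≤ G 0) : False := by
  have hd : deriv G = G1 := by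
    funext t
    exact (h1 t).deriv
  have hdd : deriv (deriv G) 0 = d2 := by rw [hd]; exact h2.deriv
  have hmin : IsLocalMin G 0 :=
    isLocalMin_of_deriv_deriv_pos (by rw [hdd]; exact hpos) (by rw [hd]; exact h0)
      (h1 0).continuousAt
  have hev : G =ᶠ[𝓝 0] fun _ => G 0 := by
    filter_upwards [hmax, hmin] with t ht ht'
    exact le_antisymm ht ht'
  have h3 := hev.deriv.deriv_eq
  rw [hdd] at h3
  simp at h3
  linarith

lemma one_side {G : ℝ → ℝ} {d μ : ℝ} (h : HasDerivAt G d 0) (hμ : 0 < μ)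
    (hmax : ∀ t, 0 ≤ t → t ≤ μ → G t ≤ G 0) : d ≤ 0 := by
  have h1 := h.tendsto_slope_zero_right
  apply le_of_tendsto h1
  filter_upwards [Ioo_mem_nhdsGT hμ] with t ht
  have h2 := hmax t ht.1.le ht.2.le
  rw [zero_add, smul_eq_mul]
  exact mul_nonpos_of_nonneg_of_nonpos (inv_nonneg.2 ht.1.le) (by linarith)

/-- the objective -/
noncomputable def Mf (φ : ℕ → ℂ) {n : ℕ} (e : ℂ) (ε : ℝ) (c : Fin (n + 1) → ℂ) : ℝ :=
  (e * LF φ (n + 1) (GS c)).re + ε * normSq (c 0)

lemma cont_coeff_pow (N k j : ℕ) :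
    Continuous fun c : Fin N → ℂ => PowerSeries.coeff j ((GS c) ^ k) := by
  induction k generalizing j with
  | zero => simp only [pow_zero]; exact continuous_const
  | succ k ih =>
    simp only [pow_succ, PowerSeries.coeff_mul]
    apply continuous_finsetSum
    intro p _
    apply (ih p.1).mul
    simp only [coeff_GS]
    by_cases h : 1 ≤ p.2 ∧ p.2 ≤ N
    · simp only [dif_pos h]
      exact continuous_apply _
    · simp only [dif_neg h]
      exact continuous_const

lemma Mf_cont (φ : ℕ → ℂ) {n : ℕ} (e : ℂ) (ε : ℝ) :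
    Continuous (Mf φ e ε : (Fin (n + 1) → ℂ) → ℝ) := by
  unfold Mf LF
  apply Continuous.add
  · apply continuous_re.comp
    apply continuous_const.mul
    apply continuous_finsetSum
    intro k _
    exact continuous_const.mul (cont_coeff_pow _ _ _)
  · exact continuous_const.mul (continuous_normSq.comp (continuous_apply 0))

lemma normSq_line (a b : ℂ) (t : ℝ) : normSq (a + t * b) =
    normSq a + 2 * t * (starRingEnd ℂ a * b).re + t ^ 2 * normSq b := by
  simp only [normSq_apply, add_re, add_im, mul_re, mul_im, ofReal_re, ofReal_im, conj_re, conj_im]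
  ring

/-- first derivative along a line -/
noncomputable def G1 (φ : ℕ → ℂ) {n : ℕ} (e : ℂ) (ε : ℝ) (c v : Fin (n + 1) → ℂ) (t : ℝ) : ℝ :=
  (e * ∑ k ∈ Finset.range (n + 1 + 1), φ k *
      PowerSeries.coeff (n + 1) ((k : ℂ⟦X⟧) * (GS c + PowerSeries.C (t : ℂ) * GS v) ^ (k - 1) *
        GS v)).re + ε * (2 * (starRingEnd ℂ (c 0) * v 0).re + 2 * t * normSq (v 0))

lemma Mf_line (φ : ℕ → ℂ) {n : ℕ} (e : ℂ) (ε : ℝ) (c v : Fin (n + 1) → ℂ) (t : ℝ) :
    Mf φ e ε (c + t • v) = (e * LF φ (n + 1) (GS c + PowerSeries.C (t : ℂ) * GS v)).re +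
      ε * (normSq (c 0) + 2 * t * (starRingEnd ℂ (c 0) * v 0).re + t ^ 2 * normSq (v 0)) := by
  unfold Mf
  rw [GS_add, GS_smul, ← normSq_line]
  simp

lemma hasDeriv1 (hDer : S_DER) (φ : ℕ → ℂ) {n : ℕ} (e : ℂ) (ε : ℝ) (c v : Fin (n + 1) → ℂ)
    (t : ℝ) : HasDerivAt (fun t : ℝ => Mf φ e ε (c + t • v)) (G1 φ e ε c v t) t := by
  simp only [Mf_line]
  unfold G1
  apply HasDerivAt.add
  · exact (Complex.reCLM.hasFDerivAt.comp_hasDerivAt t
      ((hDer φ (n + 1) (GS c) (GS v) t).1.const_mul e))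
  · apply HasDerivAt.const_mul
    have h1 : HasDerivAt (fun t : ℝ => normSq (c 0) + 2 * t * (starRingEnd ℂ (c 0) * v 0).re)
        (2 * (starRingEnd ℂ (c 0) * v 0).re) t := by
      have := (((hasDerivAt_id' t).const_mul 2).mul_const
        (starRingEnd ℂ (c 0) * v 0).re).const_add (normSq (c 0))
      simpa using this
    have h2 : HasDerivAt (fun t : ℝ => t ^ 2 * normSq (v 0)) (2 * t * normSq (v 0)) t := by
      have := (hasDerivAt_pow 2 t).mul_const (normSq (v 0))
      simpa using this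
    exact h1.add h2

lemma hasDeriv2 (hDer : S_DER) (φ : ℕ → ℂ) {n : ℕ} (e : ℂ) (ε : ℝ) (c v : Fin (n + 1) → ℂ)
    (t : ℝ) : HasDerivAt (G1 φ e ε c v)
      ((e * ∑ k ∈ Finset.range (n + 1 + 1), φ k *
        PowerSeries.coeff (n + 1) ((k : ℂ⟦X⟧) * ((k - 1 : ℕ) : ℂ⟦X⟧) *
          (GS c + PowerSeries.C (t : ℂ) * GS v) ^ (k - 2) * GS v ^ 2)).re +
        ε * (2 * normSq (v 0))) t := by
  unfold G1
  apply HasDerivAt.add
  · exact (Complex.reCLM.hasFDerivAt.comp_hasDerivAt t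
      ((hDer φ (n + 1) (GS c) (GS v) t).2.const_mul e))
  · apply HasDerivAt.const_mul
    have := (((hasDerivAt_id' t).const_mul 2).mul_const (normSq (v 0))).const_add
      (2 * (starRingEnd ℂ (c 0) * v 0).re)
    simpa using this

lemma gam_cont (N : ℕ) : Continuous (gam N) := by
  unfold gam
  fun_prop

lemma gam_mem {N : ℕ} {x : ℂ} (h : ‖x‖ = 1) : gam N x ∈ CN N :=
  subset_convexHull ℝ _ ⟨x, by simpa using h, rfl⟩

/-- moving a point of the convex combination -/
lemma move {N : ℕ} {ι : Type} [Fintype ι] [DecidableEq ι] {x : ι → ℂ} {w : ι → ℝ}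
    (hx : ∀ i, ‖x i‖ = 1) (hw : ∀ i, 0 < w i) (hw1 : ∑ i, w i = 1) (j : ι) {y : ℂ}
    (hy : ‖y‖ = 1) {t : ℝ} (h0 : 0 ≤ t) (h1 : t ≤ w j) :
    (∑ i, w i • gam N (x i)) + t • (gam N y - gam N (x j)) ∈ CN N := by
  have hc : Convex ℝ (CN N) := convex_convexHull ℝ _
  have hp : ∀ i, (if i = j then gam N (x j) + (t / w j) • (gam N y - gam N (x j)) else
      gam N (x i)) ∈ CN N := by
    intro i
    by_cases hij : i = j
    · rw [if_pos hij]
      have ht : t / w j ∈ Icc (0 : ℝ) 1 :=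
        ⟨div_nonneg h0 (hw j).le, (div_le_one (hw j)).2 h1⟩
      exact hc.add_smul_sub_mem (gam_mem (hx j)) (gam_mem hy) ht
    · rw [if_neg hij]
      exact gam_mem (hx i)
  have h2 := hc.sum_mem (t := Finset.univ) (w := w) (fun i _ => (hw i).le) hw1 (fun i _ => hp i)
  have h3 : ∑ i, w i • (if i = j then gam N (x j) + (t / w j) • (gam N y - gam N (x j)) else
      gam N (x i)) = (∑ i, w i • gam N (x i)) + t • (gam N y - gam N (x j)) := by
    have h4 : ∀ i, w i • (if i = j then gam N (x j) + (t / w j) • (gam N y - gam N (x j)) else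
      gam N (x i)) = w i • gam N (x i) + if i = j then t • (gam N y - gam N (x j)) else 0 := by
      intro i
      by_cases hij : i = j
      · subst hij
        rw [if_pos rfl, if_pos rfl, smul_add, smul_smul, mul_div_cancel₀ _ (hw i).ne']
      · rw [if_neg hij, if_neg hij, add_zero]
    rw [Finset.sum_congr rfl fun i _ => h4 i, Finset.sum_add_distrib]
    simp
  rw [← h3]
  exact h2

end Pool.Agent.TH775.AC.SV
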