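import Pool.Agent.TH558.AC.SVb

set_option autoImplicit false

open Complex Metric Set PowerSeries
open scoped BigOperators Topology

namespace Pool.Agent.TH775.AC.SV

open Pool.Agent.H713R2 (tc tc_unique tc_mul tc_deriv tc_zero hasSum_tc)

/-- a function with real part of `1 + s` bigger than `1/2` -/
lemma w_mem {s : ℂ} (h : 1 / 2 < (1 + s).re) : 1 + s ≠ 0 ∧ s / (1 + s) ∈ ball (0 : ℂ) 1 ∧
    1 / (1 - s / (1 + s)) = 1 + s := by
  have h1 : 1 + s ≠ 0 := by
    intro hh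
    rw [hh] at h
    norm_num at h
  refine ⟨h1, ?_, ?_⟩
  · rw [mem_ball_zero_iff, norm_div, div_lt_one (norm_pos_iff.2 h1)]
    have h2 : normSq s < normSq (1 + s) := by
      rw [normSq_apply, normSq_apply]
      simp only [add_re, add_im, one_re, one_im] at h ⊢
      nlinarith
    rw [normSq_eq_norm_sq, normSq_eq_norm_sq] at h2
    exact lt_of_pow_lt_pow_left₀ 2 (norm_nonneg _) h2
  · field_simp
    ring

lemma Tr_comp_diff {F s : ℂ → ℂ} (hF : DifferentiableOn ℂ F (ball 0 1))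
    (hs : DifferentiableOn ℂ s (ball 0 1)) (hre : ∀ z ∈ ball (0 : ℂ) 1, 1 / 2 < (1 + s z).re) :
    DifferentiableOn ℂ (fun z => Tr F (s z)) (ball 0 1) := by
  have h1 : DifferentiableOn ℂ (fun z => s z / (1 + s z)) (ball 0 1) :=
    hs.div ((differentiableOn_const 1).add hs) fun z hz => (w_mem (hre z hz)).1
  exact hF.comp h1 fun z hz => (w_mem (hre z hz)).2.1

/-- the linear functional (first variation) -/
noncomputable def Psi {n : ℕ} (e : ℂ) (ε : ℝ) (P : ℂ⟦X⟧) (c v : Fin (n + 1) → ℂ) : ℝ :=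
  (e * PowerSeries.coeff (n + 1) (P * GS v)).re + 2 * ε * (starRingEnd ℂ (c 0) * v 0).re

lemma Psi_lin {n : ℕ} (e : ℂ) (ε : ℝ) (P : ℂ⟦X⟧) (c : Fin (n + 1) → ℂ) :
    IsLinearMap ℝ (Psi e ε P c) := by
  constructor
  · intro u v
    unfold Psi
    rw [GS_add, mul_add, map_add]
    simp only [Pi.add_apply, mul_add, add_re]
    ring
  · intro r v
    unfold Psi
    rw [GS_smul, ← mul_assoc, mul_comm P, mul_assoc, PowerSeries.coeff_C_mul]
    have h1 : e * ((r : ℂ) * PowerSeries.coeff (n + 1) (P * GS v)) =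
        (r : ℂ) * (e * PowerSeries.coeff (n + 1) (P * GS v)) := by ring
    have h2 : starRingEnd ℂ (c 0) * (r • v) 0 = (r : ℂ) * (starRingEnd ℂ (c 0) * v 0) := by
      simp only [Pi.smul_apply, real_smul]
      ring
    rw [h1, h2, re_ofReal_mul, re_ofReal_mul, smul_eq_mul]
    ring

/-- the value at the points of the curve -/
lemma LF_gam (hComp : S_COMP) {K : ℂ → ℂ} (hK : DifferentiableOn ℂ K (ball 0 1)) {N : ℕ}
    {x : ℂ} (hx1 : ‖x‖ = 1) : LF (tc (Tr K)) N (GS (gam N x)) = x ^ N * tc K N := by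
  have hsd : DifferentiableOn ℂ (fun z => hx x z - 1) (ball 0 1) :=
    (hx_diff hx1.le).sub (differentiableOn_const 1)
  have hA : (PowerSeries.X : ℂ⟦X⟧) ^ (N + 1) ∣ TS (fun z => hx x z - 1) - GS (gam N x) := by
    apply TS_GS
    · rw [tc_zero, hx_zero, sub_self]
    · intro j
      rw [tc_sub (hx_diff hx1.le) (differentiableOn_const 1), tc_hx hx1.le, tc_const_succ, sub_zero]
      rfl
  rw [← D0 hComp hK hsd (by simp [hx_zero]) hA]
  have h1 : tc (fun z => Tr K (hx x z - 1)) N = tc (fun z => K (x * z)) N := by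
    apply tc_congr_on
    intro z hz
    unfold Tr
    congr 1
    have := hx_ne hx1.le hz
    unfold hx
    field_simp
    ring
  rw [h1]
  have hm : MapsTo (fun z => x * z) (ball (0 : ℂ) 1) (ball 0 1) := by
    intro z hz
    simp only [mem_ball_zero_iff, norm_mul, hx1, one_mul] at hz ⊢
    exact hz
  have hd : DifferentiableOn ℂ (fun z => K (x * z)) (ball 0 1) :=
    hK.comp (differentiableOn_id.const_mul x) hm
  have h2 := tc_unique (a := fun k => x ^ k * tc K k) (F := fun z => K (x * z)) one_pos hd ?_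
  · rw [← h2]
  · filter_upwards [ball_mem_nhds (0 : ℂ) one_pos] with z hz
    have h3 := hasSum_tc hK (hm hz)
    have h4 : (fun k => x ^ k * tc K k * z ^ k) = fun k => tc K k * (x * z) ^ k := by
      funext k
      rw [mul_pow]
      ring
    rw [h4]
    exact h3

/-- the main contradiction: the maximum is not at a proper convex combination -/
lemma main (hHull : S_HULL) (hAlg : S_ALG) (hDer : S_DER) (hComp : S_COMP)
    {K X κ : ℂ → ℂ} {lam : ℝ} {n : ℕ} (hlam : 0 < lam)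
    (hK : DifferentiableOn ℂ K (ball 0 1)) (hX : DifferentiableOn ℂ X (ball 0 1))
    (hκ : DifferentiableOn ℂ κ (ball 0 1))
    (h1 : ∀ z ∈ ball (0 : ℂ) 1, deriv K z * (1 - z) ^ 2 = X z)
    (h2 : ∀ z ∈ ball (0 : ℂ) 1, deriv X z * (1 - z) ^ 2 = lam * (X z * κ z))
    (h3 : ∀ z ∈ ball (0 : ℂ) 1, ((1 / (1 - z)).re - 1 / 2) * ‖κ z‖ ^ 2 ≤ (κ z).re)
    (e : ℂ) {ε : ℝ} (hε : 0 < ε) {ι : Type} [Fintype ι] {x : ι → ℂ} {w : ι → ℝ}
    (hxn : ∀ i, ‖x i‖ = 1) (hw : ∀ i, 0 < w i) (hw1 : ∑ i, w i = 1)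
    (hmax : ∀ c ∈ CN (n + 1), Mf (tc (Tr K)) e ε c ≤
      Mf (tc (Tr K)) e ε (∑ i, w i • gam (n + 1) (x i))) (i j : ι) : x i = x j := by
  classical
  by_contra hne
  set c₀ : Fin (n + 1) → ℂ := ∑ i, w i • gam (n + 1) (x i) with hc₀
  have hij : i ≠ j := fun hh => hne (by rw [hh])
  -- the function s
  obtain ⟨s, hs⟩ : ∃ s : ℂ → ℂ, s = fun z => (∑ k, (w k : ℂ) * hx (x k) z) - 1 := ⟨_, rfl⟩
  have hg0d : DifferentiableOn ℂ (fun z => ∑ k, (w k : ℂ) * hx (x k) z) (ball 0 1) := by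
    apply DifferentiableOn.fun_sum
    intro k _
    exact (hx_diff (hxn k).le).const_mul _
  have hsd : DifferentiableOn ℂ s (ball 0 1) := by
    rw [hs]
    exact hg0d.sub (differentiableOn_const 1)
  have hs1 : ∀ z, 1 + s z = ∑ k, (w k : ℂ) * hx (x k) z := by
    intro z
    rw [hs]
    ring
  have hsum1 : ∑ k, (w k : ℂ) = 1 := by exact_mod_cast hw1
  have hs0 : s 0 = 0 := by
    rw [hs]
    simp only [hx_zero, mul_one, hsum1, sub_self]
  have hreS : ∀ z, (1 + s z).re = ∑ k, w k * (hx (x k) z).re := by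
    intro z
    rw [hs1, re_sum]
    exact Finset.sum_congr rfl fun k _ => re_ofReal_mul _ _
  have hre : ∀ z ∈ ball (0 : ℂ) 1, 1 / 2 < (1 + s z).re := by
    intro z hz
    rw [hreS]
    have e1 : (1 / 2 : ℝ) = ∑ k, w k * (1 / 2) := by rw [← Finset.sum_mul, hw1, one_mul]
    rw [e1]
    exact Finset.sum_lt_sum (fun k _ => (mul_lt_mul_of_pos_left (hx_re (hxn k).le hz) (hw k)).le)
      ⟨i, Finset.mem_univ i, mul_lt_mul_of_pos_left (hx_re (hxn i).le hz) (hw i)⟩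
  have hA : (PowerSeries.X : ℂ⟦X⟧) ^ (n + 1 + 1) ∣ TS s - GS c₀ := by
    apply TS_GS
    · rw [tc_zero, hs0]
    · intro k
      rw [hs, tc_sub hg0d (differentiableOn_const 1), tc_const_succ, sub_zero,
        tc_sum _ _ (fun k => hx_diff (hxn k).le), hc₀, Finset.sum_apply]
      refine Finset.sum_congr rfl fun l _ => ?_
      rw [tc_hx (hxn l).le, Pi.smul_apply, real_smul]
      rfl
  obtain ⟨P, hP⟩ : ∃ P : ℂ⟦X⟧, P = TS (fun z => Tr X (s z)) := ⟨_, rfl⟩
  -- first variation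
  have hfirst : ∀ v : Fin (n + 1) → ℂ, G1 (tc (Tr K)) e ε c₀ v 0 = Psi e ε P c₀ v := by
    intro v
    unfold G1 Psi
    have e1 : GS c₀ + PowerSeries.C ((0 : ℝ) : ℂ) * GS v = GS c₀ := by simp
    rw [e1, ← D1 hComp hK hX h1 hsd hs0 hA (X_dvd_GS v), hP]
    ring
  have hlin := Psi_lin (n := n) e ε P c₀
  have hPsub : ∀ u v, Psi e ε P c₀ (u - v) = Psi e ε P c₀ u - Psi e ε P c₀ v := by
    intro u v
    exact hlin.map_sub u v
  have hle : ∀ (k : ι) (y : ℂ), ‖y‖ = 1 →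
      Psi e ε P c₀ (gam (n + 1) y) ≤ Psi e ε P c₀ (gam (n + 1) (x k)) := by
    intro k y hy
    have hd := hasDeriv1 hDer (tc (Tr K)) e ε c₀ (gam (n + 1) y - gam (n + 1) (x k)) 0
    rw [hfirst] at hd
    have := one_side hd (hw k) (by
      intro t ht0 ht1
      have := hmax _ (move hxn hw hw1 k hy ht0 ht1)
      simpa using this)
    rw [hPsub] at this
    linarith
  obtain ⟨Λ, hΛ⟩ : ∃ Λ : ℝ, Λ = Psi e ε P c₀ (gam (n + 1) (x i)) := ⟨_, rfl⟩
  have hΛj : Psi e ε P c₀ (gam (n + 1) (x j)) = Λ := by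
    rw [hΛ]
    exact le_antisymm (hle i _ (hxn j)) (hle j _ (hxn i))
  have hCN : ∀ v ∈ CN (n + 1), Psi e ε P c₀ v ≤ Λ := by
    intro v hv
    have hconv : Convex ℝ {v | Psi e ε P c₀ v ≤ Λ} := convex_halfSpace_le hlin Λ
    refine convexHull_min ?_ hconv hv
    rintro _ ⟨y, hy, rfl⟩
    change Psi e ε P c₀ (gam (n + 1) y) ≤ Λ
    rw [hΛ]
    exact hle i y (by simpa using hy)
  -- the second variation
  obtain ⟨η, hη⟩ : ∃ η : ℂ → ℂ, η = fun z => hx (x i) z - hx (x j) z := ⟨_, rfl⟩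
  have hηd : DifferentiableOn ℂ η (ball 0 1) := by
    rw [hη]
    exact (hx_diff (hxn i).le).sub (hx_diff (hxn j).le)
  have hη0 : η 0 = 0 := by
    rw [hη]
    simp [hx_zero]
  obtain ⟨v, hv⟩ : ∃ v : Fin (n + 1) → ℂ, v = gam (n + 1) (x i) - gam (n + 1) (x j) := ⟨_, rfl⟩
  have hB : (PowerSeries.X : ℂ⟦X⟧) ^ (n + 1 + 1) ∣ TS η - GS v := by
    apply TS_GS
    · rw [tc_zero, hη0]
    · intro k
      rw [hη, tc_sub (hx_diff (hxn i).le) (hx_diff (hxn j).le), tc_hx (hxn i).le,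
        tc_hx (hxn j).le, hv]
      rfl
  obtain ⟨Y, hY⟩ : ∃ Y : ℂ → ℂ, Y = fun z => (lam : ℂ) * (X z * κ z) := ⟨_, rfl⟩
  have hYd : DifferentiableOn ℂ Y (ball 0 1) := by
    rw [hY]
    exact (hX.mul hκ).const_mul _
  obtain ⟨T, hT⟩ : ∃ T : ℂ → ℂ, T = fun z => (lam : ℂ) * (Tr κ (s z) * (η z * η z)) := ⟨_, rfl⟩
  have hκs := Tr_comp_diff hκ hsd hre
  have hXs := Tr_comp_diff hX hsd hre
  have hTd : DifferentiableOn ℂ T (ball 0 1) := by
    rw [hT]
    exact (hκs.mul (hηd.mul hηd)).const_mul _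
  have hTS : TS T = PowerSeries.C (lam : ℂ) * (TS (fun z => Tr κ (s z)) * (TS η * TS η)) := by
    rw [hT, TS_cmul (f := fun z => Tr κ (s z) * (η z * η z)) (hκs.mul (hηd.mul hηd)),
      TS_mul (g := fun z => η z * η z) hκs (hηd.mul hηd), TS_mul hηd hηd]
  have hXη : (PowerSeries.X : ℂ⟦X⟧) ∣ TS η := X_dvd_TS (by rw [tc_zero, hη0])
  have hX2T : (PowerSeries.X : ℂ⟦X⟧) ^ 2 ∣ TS T := by
    rw [hTS, pow_two]
    exact ((mul_dvd_mul hXη hXη).mul_left _).mul_left _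
  have hT0 : tc T 0 = 0 := by
    have := PowerSeries.X_pow_dvd_iff.1 hX2T 0 (by norm_num)
    simpa only [TS, PowerSeries.coeff_mk] using this
  have hT1 : tc T 1 = 0 := by
    have := PowerSeries.X_pow_dvd_iff.1 hX2T 1 (by norm_num)
    simpa only [TS, PowerSeries.coeff_mk] using this
  obtain ⟨wv, hwv⟩ : ∃ wv : Fin (n + 1) → ℂ, wv = fun k : Fin (n + 1) => tc T ((k : ℕ) + 1) := ⟨_, rfl⟩
  have hTw : (PowerSeries.X : ℂ⟦X⟧) ^ (n + 1 + 1) ∣ TS T - GS wv := by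
    apply TS_GS hT0
    intro k
    rw [hwv]
  have hPw : Psi e ε P c₀ wv = (e * PowerSeries.coeff (n + 1) (P * TS T)).re := by
    unfold Psi
    have e1 : wv 0 = 0 := by
      rw [hwv]
      exact hT1
    have e2 : PowerSeries.coeff (n + 1) (P * GS wv) = PowerSeries.coeff (n + 1) (P * TS T) := by
      symm
      apply coeff_eq_of_dvd
      rw [← mul_sub]
      exact hTw.mul_left P
    rw [e1, e2]
    simp
  have hD2 : (∑ k ∈ Finset.range (n + 1 + 1), tc (Tr K) k *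
        PowerSeries.coeff (n + 1) ((k : ℂ⟦X⟧) * ((k - 1 : ℕ) : ℂ⟦X⟧) *
          (GS c₀ + PowerSeries.C ((0 : ℝ) : ℂ) * GS v) ^ (k - 2) * GS v ^ 2)) =
      PowerSeries.coeff (n + 1) (P * TS T) := by
    have e1 : GS c₀ + PowerSeries.C ((0 : ℝ) : ℂ) * GS v = GS c₀ := by simp
    have hYe : ∀ z ∈ ball (0 : ℂ) 1, deriv X z * (1 - z) ^ 2 = Y z := by
      intro z hz
      rw [h2 z hz, hY]
    rw [e1, ← D2 hComp hK hX hYd h1 hYe hsd hs0 hA (X_dvd_GS v)]
    have e2 : TS (fun z => Tr Y (s z)) =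
        PowerSeries.C (lam : ℂ) * (P * TS (fun z => Tr κ (s z))) := by
      rw [hP, ← TS_mul hXs hκs, ← TS_cmul (f := fun z => Tr X (s z) * Tr κ (s z))
        (hXs.mul hκs), hY]
      rfl
    have e3 : (PowerSeries.X : ℂ⟦X⟧) ^ (n + 1 + 1) ∣
        TS (fun z => Tr Y (s z)) * (TS η) ^ 2 - TS (fun z => Tr Y (s z)) * GS v ^ 2 := by
      rw [← mul_sub]
      exact (hB.trans (sub_dvd_pow_sub_pow _ _ 2)).mul_left _
    rw [← coeff_eq_of_dvd e3, e2, hTS]
    congr 1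
    ring
  -- the auxiliary function q
  obtain ⟨A1, hA1⟩ : ∃ A1 : ℝ, A1 = lam / w i := ⟨_, rfl⟩
  obtain ⟨A2, hA2⟩ : ∃ A2 : ℝ, A2 = lam / w j := ⟨_, rfl⟩
  have hA1p : 0 < A1 := by rw [hA1]; exact div_pos hlam (hw i)
  have hA2p : 0 < A2 := by rw [hA2]; exact div_pos hlam (hw j)
  obtain ⟨q, hq⟩ : ∃ q : ℂ → ℂ, q = fun z => ((A1 : ℂ) * hx (x i) z + (A2 : ℂ) * hx (x j) z) -
      T z := ⟨_, rfl⟩
  have hi := hx_diff (hxn i).le
  have hj := hx_diff (hxn j).le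
  have hqd : DifferentiableOn ℂ q (ball 0 1) := by
    rw [hq]
    exact ((hi.const_mul _).add (hj.const_mul _)).sub hTd
  have hT00 : T 0 = 0 := by
    rw [← tc_zero T]
    exact hT0
  have hq0 : q 0 = ((A1 + A2 : ℝ) : ℂ) := by
    rw [hq]
    simp [hx_zero, hT00]
  have hqre : ∀ z ∈ ball (0 : ℂ) 1, (A1 + A2) / 2 ≤ (q z).re := by
    intro z hz
    obtain ⟨hw0, hwm, hwi⟩ := w_mem (hre z hz)
    obtain ⟨kap, hkap⟩ : ∃ kap : ℂ, kap = Tr κ (s z) := ⟨_, rfl⟩
    have hq' : q z = (A1 : ℂ) * hx (x i) z + (A2 : ℂ) * hx (x j) z -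
        (lam : ℂ) * (kap * ((hx (x i) z - hx (x j) z) * (hx (x i) z - hx (x j) z))) := by
      rw [hq, hT, hkap, hη]
    obtain ⟨a1, ha1⟩ : ∃ a1 : ℂ, a1 = hx (x i) z - 1 / 2 := ⟨_, rfl⟩
    obtain ⟨a2, ha2⟩ : ∃ a2 : ℂ, a2 = hx (x j) z - 1 / 2 := ⟨_, rfl⟩
    have ha1e : hx (x i) z = a1 + 1 / 2 := by rw [ha1]; ring
    have ha2e : hx (x j) z = a2 + 1 / 2 := by rw [ha2]; ring
    have ha1r : 0 ≤ a1.re := by
      have := hx_re (hxn i).le hz
      rw [ha1]
      norm_num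
      linarith
    have ha2r : 0 ≤ a2.re := by
      have := hx_re (hxn j).le hz
      rw [ha2]
      norm_num
      linarith
    have hhalf : ((A1 : ℂ) * (a1 + 1 / 2) + (A2 : ℂ) * (a2 + 1 / 2)) =
        ((A1 : ℂ) * a1 + (A2 : ℂ) * a2) + (((A1 + A2) / 2 : ℝ) : ℂ) := by
      push_cast
      ring
    by_cases hk0 : kap = 0
    · rw [hq', hk0, ha1e, ha2e, hhalf]
      simp only [zero_mul, mul_zero, sub_zero, add_re, re_ofReal_mul, ofReal_re]
      have := mul_nonneg hA1p.le ha1r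
      have := mul_nonneg hA2p.le ha2r
      linarith
    · obtain ⟨Q, hQ⟩ : ∃ Q : ℂ, Q = kap⁻¹ := ⟨_, rfl⟩
      have hQ0 : Q ≠ 0 := by rw [hQ]; exact inv_ne_zero hk0
      have hQre : (1 + s z).re - 1 / 2 ≤ Q.re := by
        have h5 := h3 _ hwm
        rw [hwi] at h5
        have h6 : κ (s z / (1 + s z)) = kap := by rw [hkap]; rfl
        rw [h6] at h5
        rw [hQ, inv_re, normSq_eq_norm_sq, le_div_iff₀ (by positivity)]
        exact h5
      obtain ⟨b, hb⟩ : ∃ b : ℂ, b = Q - (w i : ℂ) * a1 - (w j : ℂ) * a2 := ⟨_, rfl⟩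
      have hbr : 0 ≤ b.re := by
        rw [hb, sub_re, sub_re, re_ofReal_mul, re_ofReal_mul]
        have h7 : w i * a1.re + w j * a2.re ≤ (1 + s z).re - 1 / 2 := by
          rw [hreS]
          have e1 : (∑ k, w k * (hx (x k) z).re) - 1 / 2 =
              ∑ k, w k * ((hx (x k) z).re - 1 / 2) := by
            simp only [mul_sub]
            rw [Finset.sum_sub_distrib, ← Finset.sum_mul, hw1, one_mul]
          rw [e1]
          have e2 : w i * a1.re + w j * a2.re =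
              ∑ k ∈ ({i, j} : Finset ι), w k * ((hx (x k) z).re - 1 / 2) := by
            rw [Finset.sum_pair hij, ha1, ha2]
            norm_num
          rw [e2]
          apply Finset.sum_le_sum_of_subset_of_nonneg (Finset.subset_univ _)
          intro k _ _
          exact mul_nonneg (hw k).le (by linarith [hx_re (hxn k).le hz])
        linarith
      have hsumQ : (w i : ℂ) * a1 + (w j : ℂ) * a2 + b = Q := by rw [hb]; ring
      have h8 := hAlg a1 a2 b (w i) (w j) (hw i) (hw j) ha1r ha2r hbr (by rw [hsumQ]; exact hQ0)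
      rw [hsumQ] at h8
      have h9 : q z = (lam : ℂ) * (a1 / (w i : ℂ) + a2 / (w j : ℂ) - (a1 - a2) ^ 2 / Q) +
          (((A1 + A2) / 2 : ℝ) : ℂ) := by
        rw [hq', ha1e, ha2e, hhalf, hQ, hA1, hA2]
        have hwi0 : (w i : ℂ) ≠ 0 := by exact_mod_cast (hw i).ne'
        have hwj0 : (w j : ℂ) ≠ 0 := by exact_mod_cast (hw j).ne'
        push_cast
        field_simp
        ring
      rw [h9, add_re, re_ofReal_mul, ofReal_re]
      have := mul_nonneg hlam.le h8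
      linarith
  have ha0 : 0 < A1 + A2 := by linarith
  have hvq := hHull (n + 1) q (A1 + A2) ha0 hqd hq0 hqre
  have hPq := hCN _ hvq
  have hwsum : wv = A1 • gam (n + 1) (x i) + A2 • gam (n + 1) (x j) -
      (A1 + A2) • (fun k : Fin (n + 1) => tc q ((k : ℕ) + 1) / ((A1 + A2 : ℝ) : ℂ)) := by
    funext k
    have ha0' : ((A1 + A2 : ℝ) : ℂ) ≠ 0 := by exact_mod_cast ha0.ne'
    simp only [Pi.sub_apply, Pi.add_apply, Pi.smul_apply, real_smul]
    rw [mul_div_cancel₀ _ ha0', hwv, hq,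
      tc_sub (f := fun z => (A1 : ℂ) * hx (x i) z + (A2 : ℂ) * hx (x j) z)
        ((hi.const_mul _).add (hj.const_mul _)) hTd,
      tc_add (f := fun z => (A1 : ℂ) * hx (x i) z) (g := fun z => (A2 : ℂ) * hx (x j) z)
        (hi.const_mul _) (hj.const_mul _), tc_cmul hi, tc_cmul hj, tc_hx (hxn i).le,
      tc_hx (hxn j).le]
    unfold gam
    ring
  have hPwv : 0 ≤ Psi e ε P c₀ wv := by
    rw [hwsum, hPsub, hlin.map_add, hlin.map_smul, hlin.map_smul, hlin.map_smul, hΛj, ← hΛ]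
    simp only [smul_eq_mul]
    have := mul_le_mul_of_nonneg_left hPq ha0.le
    linarith
  -- conclusion
  have hv0 : v 0 = x i - x j := by
    rw [hv]
    simp [gam]
  have hGG := hasDeriv2 hDer (tc (Tr K)) e ε c₀ v 0
  rw [hD2, ← hPw] at hGG
  have hvpos : 0 < normSq (v 0) := by
    rw [hv0]
    exact normSq_pos.2 (sub_ne_zero.2 hne)
  refine no_max (G := fun t => Mf (tc (Tr K)) e ε (c₀ + t • v)) (G1 := G1 (tc (Tr K)) e ε c₀ v)
    (fun t => hasDeriv1 hDer _ e ε c₀ v t) hGG ?_ ?_ ?_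
  · rw [hfirst, hv, hPsub, hΛj, ← hΛ, sub_self]
  · have : 0 < ε * (2 * normSq (v 0)) := by positivity
    linarith
  · have hδ : 0 < min (w i) (w j) := lt_min (hw i) (hw j)
    filter_upwards [Ioo_mem_nhds (neg_lt_zero.2 hδ) hδ] with t ht
    have h00 : c₀ + (0 : ℝ) • v = c₀ := by simp
    simp only [h00]
    by_cases ht0 : 0 ≤ t
    · have := hmax _ (move hxn hw hw1 j (hxn i) ht0 (ht.2.le.trans (min_le_right _ _)))
      rw [hv]
      exact this
    · push Not at ht0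
      have h10 := hmax _ (move hxn hw hw1 i (hxn j) (t := -t) (by linarith)
        ((by linarith [ht.1] : -t ≤ min (w i) (w j)).trans (min_le_left _ _)))
      have h11 : c₀ + -t • (gam (n + 1) (x j) - gam (n + 1) (x i)) = c₀ + t • v := by
        rw [hv, neg_smul, ← smul_neg, neg_sub]
      rw [h11] at h10
      exact h10

/-- the bound for the objective -/
lemma bound (hHull : S_HULL) (hAlg : S_ALG) (hDer : S_DER) (hComp : S_COMP)
    {K X κ : ℂ → ℂ} {lam : ℝ} {n : ℕ} (hlam : 0 < lam)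
    (hK : DifferentiableOn ℂ K (ball 0 1)) (hX : DifferentiableOn ℂ X (ball 0 1))
    (hκ : DifferentiableOn ℂ κ (ball 0 1))
    (h1 : ∀ z ∈ ball (0 : ℂ) 1, deriv K z * (1 - z) ^ 2 = X z)
    (h2 : ∀ z ∈ ball (0 : ℂ) 1, deriv X z * (1 - z) ^ 2 = lam * (X z * κ z))
    (h3 : ∀ z ∈ ball (0 : ℂ) 1, ((1 / (1 - z)).re - 1 / 2) * ‖κ z‖ ^ 2 ≤ (κ z).re)
    {e : ℂ} (he : ‖e‖ = 1) {ε : ℝ} (hε : 0 < ε) {c : Fin (n + 1) → ℂ} (hc : c ∈ CN (n + 1)) :
    Mf (tc (Tr K)) e ε c ≤ ‖tc K (n + 1)‖ + ε := by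
  have hcomp : IsCompact (CN (n + 1)) :=
    Pool.Agent.H73R3.compact_hull ((isCompact_sphere (0 : ℂ) 1).image (gam_cont (n + 1)))
  obtain ⟨c₁, hc₁, hmax⟩ := hcomp.exists_isMaxOn ⟨c, hc⟩
    (Mf_cont (tc (Tr K)) e ε).continuousOn
  have hmax' : ∀ d ∈ CN (n + 1), Mf (tc (Tr K)) e ε d ≤ Mf (tc (Tr K)) e ε c₁ :=
    fun d hd => hmax hd
  refine (hmax' c hc).trans ?_
  obtain ⟨ι, hι, z, w, hz, -, hw, hw1, hwz⟩ := eq_pos_convex_span_of_mem_convexHull hc₁
  have hz' : ∀ i, ∃ y : ℂ, ‖y‖ = 1 ∧ gam (n + 1) y = z i := by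
    intro i
    obtain ⟨y, hy, hyz⟩ := hz ⟨i, rfl⟩
    exact ⟨y, by simpa using hy, hyz⟩
  choose x hxn hxz using hz'
  have hc1 : c₁ = ∑ i, w i • gam (n + 1) (x i) := by
    rw [← hwz]
    exact Finset.sum_congr rfl fun i _ => by rw [hxz]
  have hall := main hHull hAlg hDer hComp hlam hK hX hκ h1 h2 h3 e hε hxn hw hw1
    (by rw [← hc1]; exact hmax')
  have hne : Nonempty ι := by
    by_contra hemp
    rw [not_nonempty_iff] at hemp
    simp at hw1
  obtain ⟨i0⟩ := hne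
  have hc2 : c₁ = gam (n + 1) (x i0) := by
    rw [hc1]
    have : ∀ i, w i • gam (n + 1) (x i) = w i • gam (n + 1) (x i0) := fun i => by rw [hall i i0]
    rw [Finset.sum_congr rfl (fun i _ => this i), ← Finset.sum_smul, hw1, one_smul]
  rw [hc2]
  unfold Mf
  rw [LF_gam hComp hK (hxn i0)]
  have e1 : (e * (x i0 ^ (n + 1) * tc K (n + 1))).re ≤ ‖tc K (n + 1)‖ := by
    refine (re_le_norm _).trans ?_
    rw [norm_mul, norm_mul, norm_pow, he, hxn i0, one_pow, one_mul, one_mul]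
  have e2 : normSq (gam (n + 1) (x i0) 0) = 1 := by
    simp [gam, normSq_eq_norm_sq, hxn i0]
  rw [e2, mul_one]
  linarith

end Pool.Agent.TH775.AC.SV

namespace Pool.Agent.TH775.AC

open SV
open Pool.Agent.H713R2 (tc tc_unique tc_mul tc_deriv tc_zero hasSum_tc)

theorem v_of (hHull : S_HULL) (hAlg : S_ALG) (hDer : S_DER) (hComp : S_COMP) : S_V := by
  intro K X κ lam N hlam hN hK hX hκ h1 h2 h3 ω hω hωz
  obtain ⟨n, rfl⟩ : ∃ n, N = n + 1 := ⟨N - 1, by omega⟩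
  have hω1 : ∀ z ∈ ball (0 : ℂ) 1, ‖ω z‖ < 1 := fun z hz =>
    (hωz z hz).trans_lt (mem_ball_zero_iff.1 hz)
  have hω0 : ω 0 = 0 := by
    have := hωz 0 (mem_ball_self one_pos)
    rw [norm_zero] at this
    exact norm_le_zero_iff.1 this
  have hne : ∀ z ∈ ball (0 : ℂ) 1, 1 - ω z ≠ 0 := by
    intro z hz hh
    have h5 : ‖ω z‖ = 1 := by rw [← sub_eq_zero.1 hh]; simp
    linarith [hω1 z hz]
  obtain ⟨s, hs⟩ : ∃ s : ℂ → ℂ, s = fun z => ω z / (1 - ω z) := ⟨_, rfl⟩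
  have hsd : DifferentiableOn ℂ s (ball 0 1) := by
    rw [hs]
    exact hω.div ((differentiableOn_const 1).sub hω) hne
  have hs0 : s 0 = 0 := by
    rw [hs]
    simp [hω0]
  have hs1 : ∀ z ∈ ball (0 : ℂ) 1, 1 + s z = hx (ω z) 1 := by
    intro z hz
    have := hne z hz
    rw [hs]
    unfold hx
    rw [mul_one]
    field_simp
    ring
  have hre : ∀ z ∈ ball (0 : ℂ) 1, 1 / 2 ≤ (1 + s z).re := by
    intro z hz
    rw [hs1 z hz]
    have h0 := hne z hz
    have hpos : 0 < normSq (1 - ω z) := normSq_pos.2 h0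
    unfold hx
    rw [mul_one, one_div (1 - ω z), inv_re, le_div_iff₀ hpos, normSq_apply]
    have h5 : (ω z).re * (ω z).re + (ω z).im * (ω z).im < 1 := by
      have := normSq_eq_norm_sq (ω z)
      rw [normSq_apply] at this
      have := hω1 z hz
      nlinarith [norm_nonneg (ω z)]
    simp only [sub_re, sub_im, one_re, one_im]
    nlinarith
  obtain ⟨c, hc⟩ : ∃ c : Fin (n + 1) → ℂ, c = fun j : Fin (n + 1) => tc s ((j : ℕ) + 1) := ⟨_, rfl⟩
  have hA : (PowerSeries.X : ℂ⟦X⟧) ^ (n + 1 + 1) ∣ TS s - GS c := by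
    apply TS_GS
    · rw [tc_zero, hs0]
    · intro j
      rw [hc]
  have hF : tc (fun z => K (ω z)) (n + 1) = LF (tc (Tr K)) (n + 1) (GS c) := by
    rw [← D0 hComp hK hsd hs0 hA]
    apply tc_congr_on
    intro z hz
    unfold Tr
    congr 1
    have := hne z hz
    rw [hs]
    field_simp
    ring
  have hcCN : c ∈ CN (n + 1) := by
    have h5 := hHull (n + 1) (fun z => 1 + s z) 1 one_pos ((differentiableOn_const 1).add hsd)
      (by simp [hs0]) hre
    have h6 : (fun j : Fin (n + 1) => tc (fun z => 1 + s z) ((j : ℕ) + 1) / ((1 : ℝ) : ℂ)) = c := by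
      funext j
      rw [tc_add (differentiableOn_const 1) hsd, tc_const_succ, hc]
      simp
    rw [h6] at h5
    exact h5
  rw [hF]
  apply le_of_forall_pos_le_add
  intro ε hε
  obtain ⟨F, hFe⟩ : ∃ F : ℂ, F = LF (tc (Tr K)) (n + 1) (GS c) := ⟨_, rfl⟩
  rw [← hFe]
  by_cases hF0 : F = 0
  · rw [hF0, norm_zero]
    have := norm_nonneg (tc K (n + 1))
    linarith
  · have hFn : ‖F‖ ≠ 0 := norm_ne_zero_iff.2 hF0
    obtain ⟨e, he⟩ : ∃ e : ℂ, e = starRingEnd ℂ F / (‖F‖ : ℂ) := ⟨_, rfl⟩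
    have hen : ‖e‖ = 1 := by
      rw [he, norm_div, norm_real, norm_norm, RCLike.norm_conj, div_self hFn]
    have heF : (e * F).re = ‖F‖ := by
      have h7 : e * F = (‖F‖ : ℂ) := by
        have hFn' : (‖F‖ : ℂ) ≠ 0 := by exact_mod_cast hFn
        rw [he, div_mul_eq_mul_div, mul_comm, mul_conj, normSq_eq_norm_sq]
        push_cast
        field_simp
      rw [h7, ofReal_re]
    have h8 := bound hHull hAlg hDer hComp hlam hK hX hκ h1 h2 h3 hen hε hcCN
    unfold Mf at h8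
    rw [← hFe, heF] at h8
    have h9 : 0 ≤ ε * normSq (c 0) := mul_nonneg hε.le (normSq_nonneg _)
    linarith

end Pool.Agent.TH775.AC
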